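import Mathlib

set_option autoImplicit false

open Polynomial

namespace Pool.Agent.Lib.MP_b6d645_co

universe u v

/-- number of independent sets of size `k`. -/
noncomputable def cnt {V : Type u} (G : SimpleGraph V) (k : ℕ) : ℕ :=
  {s : Finset V | G.IsIndepSet (s : Set V) ∧ s.card = k}.ncard

theorem cnt_comap {V : Type u} {U : Type v} (e : V ≃ U) (G : SimpleGraph U) (k : ℕ) :
    cnt (G.comap e) k = cnt G k := by
  unfold cnt
  have himg : {s : Finset U | G.IsIndepSet (s : Set U) ∧ s.card = k} =
      (Finset.map e.toEmbedding) '' {s : Finset V | (G.comap e).IsIndepSet (s : Set V) ∧ s.card = k} := by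
    ext s
    constructor
    · rintro ⟨h1, h2⟩
      refine ⟨s.map e.symm.toEmbedding, ⟨?_, ?_⟩, ?_⟩
      · intro a ha b hb hab
        simp only [Finset.coe_map, Equiv.coe_toEmbedding, Set.mem_image, Finset.mem_coe] at ha hb
        obtain ⟨a', ha', rfl⟩ := ha
        obtain ⟨b', hb', rfl⟩ := hb
        have := h1 (Finset.mem_coe.2 ha') (Finset.mem_coe.2 hb') (fun h => hab (by rw [h]))
        simpa [SimpleGraph.comap_adj] using this
      · simpa using h2
      · ext x
        simp
    · rintro ⟨t, ⟨h1, h2⟩, rfl⟩
      refine ⟨?_, by simpa using h2⟩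
      intro a ha b hb hab
      simp only [Finset.coe_map, Equiv.coe_toEmbedding, Set.mem_image, Finset.mem_coe] at ha hb
      obtain ⟨a', ha', rfl⟩ := ha
      obtain ⟨b', hb', rfl⟩ := hb
      have := h1 (Finset.mem_coe.2 ha') (Finset.mem_coe.2 hb') (fun h => hab (by rw [h]))
      simpa [SimpleGraph.comap_adj] using this
  rw [himg, Set.ncard_image_of_injective _ (Finset.map_injective _)]

/-- Kronecker substitution: read off a coefficient from one evaluation. -/
theorem kron (k : ℕ) : ∀ (P : ℕ[X]) (b : ℕ), P.eval 1 < b → (P.eval b / b ^ k) % b = P.coeff k := by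
  have key : ∀ (P : ℕ[X]) (b : ℕ), P.eval b = P.coeff 0 + b * (P.divX).eval b := by
    intro P b
    conv_lhs => rw [← Polynomial.divX_mul_X_add P]
    simp [mul_comm, add_comm]
  induction k with
  | zero =>
    intro P b h
    have h1 := key P 1
    have h0 : P.coeff 0 < b := by
      have : P.coeff 0 ≤ P.eval 1 := by rw [h1]; exact Nat.le_add_right _ _
      omega
    rw [key P b]
    simp [Nat.mod_eq_of_lt h0]
  | succ k ih =>
    intro P b h
    have h1 := key P 1
    have h0 : P.coeff 0 < b := by
      have : P.coeff 0 ≤ P.eval 1 := by rw [h1]; exact Nat.le_add_right _ _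
      omega
    have hb : 0 < b := by omega
    have h2 : (P.divX).eval 1 < b := by
      have : (P.divX).eval 1 ≤ P.eval 1 := by rw [h1]; omega
      omega
    have h3 := ih P.divX b h2
    rw [pow_succ', ← Nat.div_div_eq_div_mul]
    have h4 : P.eval b / b = (P.divX).eval b := by
      rw [key P b, Nat.add_mul_div_left _ _ hb, Nat.div_eq_of_lt h0, zero_add]
    rw [h4, h3, Polynomial.coeff_divX]

/-- independence polynomial -/
noncomputable def ipoly {V : Type u} [Fintype V] (G : SimpleGraph V)
    [DecidablePred fun s : Finset V => G.IsIndepSet (s : Set V)] : ℕ[X] :=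
  ∑ s ∈ (Finset.univ : Finset (Finset V)).filter (fun s : Finset V => G.IsIndepSet (s : Set V)),
    X ^ s.card

theorem ipoly_coeff {V : Type u} [Fintype V] (G : SimpleGraph V)
    [DecidablePred fun s : Finset V => G.IsIndepSet (s : Set V)] (k : ℕ) :
    (ipoly G).coeff k = cnt G k := by
  classical
  unfold ipoly cnt
  rw [Polynomial.finsetSum_coeff]
  simp only [Polynomial.coeff_X_pow]
  rw [Finset.sum_boole, Finset.filter_filter]
  rw [← Set.ncard_coe_finset, Nat.cast_id]
  congr 1
  ext s
  simp [eq_comm]

/-- the corona of `G` with a single vertex: attach a pendant vertex to each vertex. -/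
def corona {W : Type u} (G : SimpleGraph W) : SimpleGraph (W ⊕ W) where
  Adj x y := match x, y with
    | Sum.inl u, Sum.inl v => G.Adj u v
    | Sum.inl u, Sum.inr v => u = v
    | Sum.inr u, Sum.inl v => u = v
    | Sum.inr _, Sum.inr _ => False
  symm := ⟨by
    rintro (u | u) (v | v) h
    · exact SimpleGraph.Adj.symm h
    · exact Eq.symm h
    · exact Eq.symm h
    · exact h⟩
  loopless := ⟨by
    rintro (u | u) h
    · exact G.loopless.irrefl _ h
    · exact h⟩

theorem corona_noisol {W : Type u} (G : SimpleGraph W) (x : W ⊕ W) : ∃ y, (corona G).Adj x y := by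
  rcases x with u | u
  · exact ⟨Sum.inr u, rfl⟩
  · exact ⟨Sum.inl u, rfl⟩

theorem corona_indep_iff {W : Type u} [DecidableEq W] (G : SimpleGraph W) (s : Finset (W ⊕ W)) :
    (corona G).IsIndepSet (s : Set (W ⊕ W)) ↔
      G.IsIndepSet (s.toLeft : Set W) ∧ Disjoint s.toLeft s.toRight := by
  constructor
  · intro h
    refine ⟨?_, ?_⟩
    · intro u hu v hv huv
      have hu' : Sum.inl u ∈ s := by simpa using hu
      have hv' : Sum.inl v ∈ s := by simpa using hv
      exact h (Finset.mem_coe.2 hu') (Finset.mem_coe.2 hv') (fun e => huv (Sum.inl.inj e))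
    · rw [Finset.disjoint_left]
      intro u hu hv
      have hu' : Sum.inl u ∈ s := by simpa using hu
      have hv' : Sum.inr u ∈ s := by simpa using hv
      exact h (Finset.mem_coe.2 hu') (Finset.mem_coe.2 hv') (by simp) rfl
  · rintro ⟨h1, h2⟩
    rw [Finset.disjoint_left] at h2
    rintro (u | u) hu (v | v) hv huv
    · exact h1 (by simpa using hu) (by simpa using hv) (fun e => huv (by rw [e]))
    · intro e
      have e' : u = v := e
      subst e'
      exact h2 (by simpa using hu) (by simpa using hv)
    · intro e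
      have e' : u = v := e
      subst e'
      exact h2 (by simpa using hv) (by simpa using hu)
    · exact fun e => e

theorem corona_maximal {W : Type u} [Fintype W] [DecidableEq W] (G : SimpleGraph W)
    (s : Finset (W ⊕ W))
    (hs : Maximal (fun t : Finset (W ⊕ W) => (corona G).IsIndepSet (t : Set (W ⊕ W))) s) :
    s.card = Fintype.card W := by
  have h1 := (corona_indep_iff G s).1 hs.1
  have hcov : ∀ u : W, u ∈ s.toLeft ∨ u ∈ s.toRight := by
    intro u
    by_contra hcon
    push Not at hcon
    obtain ⟨hL, hR⟩ := hcon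
    have hins : (corona G).IsIndepSet ((insert (Sum.inr u) s : Finset (W ⊕ W)) : Set (W ⊕ W)) := by
      rw [corona_indep_iff]
      have e1 : (insert (Sum.inr u) s).toLeft = s.toLeft := by ext x; simp
      have e2 : (insert (Sum.inr u) s).toRight = insert u s.toRight := by ext x; simp
      rw [e1, e2]
      refine ⟨h1.1, ?_⟩
      rw [Finset.disjoint_insert_right]
      exact ⟨hL, h1.2⟩
    have hle := hs.2 hins (Finset.subset_insert _ _)
    have : Sum.inr u ∈ s := hle (Finset.mem_insert_self _ _)
    exact hR (by simpa using this)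
  have hun : s.toLeft ∪ s.toRight = Finset.univ := by
    ext u
    simp only [Finset.mem_union, Finset.mem_univ, iff_true]
    exact hcov u
  rw [← Finset.card_toLeft_add_card_toRight, ← Finset.card_union_of_disjoint h1.2, hun,
    Finset.card_univ]

/-- The independence polynomial of the corona. -/
theorem ipoly_corona {W : Type u} [Fintype W] [DecidableEq W] (G : SimpleGraph W)
    [DecidablePred fun S : Finset W => G.IsIndepSet (S : Set W)]
    [DecidablePred fun S : Finset (W ⊕ W) => (corona G).IsIndepSet (S : Set (W ⊕ W))] :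
    ipoly (corona G) =
      ∑ S ∈ (Finset.univ : Finset (Finset W)).filter (fun S : Finset W => G.IsIndepSet (S : Set W)),
        X ^ S.card * (1 + X) ^ (Fintype.card W - S.card) := by
  unfold ipoly
  have h1 : ∀ S ∈ (Finset.univ : Finset (Finset W)).filter
      (fun S : Finset W => G.IsIndepSet (S : Set W)),
      (X : ℕ[X]) ^ S.card * (1 + X) ^ (Fintype.card W - S.card) =
        ∑ L ∈ (Sᶜ).powerset, X ^ (S.card + L.card) := by
    intro S _
    have : ((1 : ℕ[X]) + X) ^ (Sᶜ.card) = ∑ L ∈ (Sᶜ).powerset, X ^ L.card := by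
      rw [add_comm, ← Finset.sum_pow_mul_eq_add_pow]
      simp
    rw [← Finset.card_compl, this, Finset.mul_sum]
    refine Finset.sum_congr rfl (fun L _ => ?_)
    rw [pow_add]
  rw [Finset.sum_congr rfl h1, Finset.sum_sigma']
  refine Finset.sum_bij' (fun s _ => ⟨s.toLeft, s.toRight⟩) (fun p _ => Finset.disjSum p.1 p.2)
    ?_ ?_ ?_ ?_ ?_
  · intro s hs
    have := (corona_indep_iff G s).1 (Finset.mem_filter.1 hs).2
    simp only [Finset.mem_sigma, Finset.mem_filter, Finset.mem_univ, true_and,
      Finset.mem_powerset]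
    exact ⟨this.1, by
      intro x hx
      rw [Finset.mem_compl]
      intro hx'
      exact (Finset.disjoint_left.1 this.2) hx' hx⟩
  · rintro ⟨S, L⟩ hp
    simp only [Finset.mem_sigma, Finset.mem_filter, Finset.mem_univ, true_and,
      Finset.mem_powerset] at hp
    refine Finset.mem_filter.2 ⟨Finset.mem_univ _, ?_⟩
    rw [corona_indep_iff]
    simp only [Finset.toLeft_disjSum, Finset.toRight_disjSum]
    refine ⟨hp.1, ?_⟩
    rw [Finset.disjoint_left]
    intro x hx hx'
    exact (Finset.mem_compl.1 (hp.2 hx')) hx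
  · intro s hs
    ext x
    rcases x with x | x <;> simp
  · rintro ⟨S, L⟩ hp
    simp
  · intro s hs
    simp only
    rw [Finset.card_toLeft_add_card_toRight]

end Pool.Agent.Lib.MP_b6d645_co
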