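import Mathlib
import Pool.Agent.Lib.MP_b6d645_co.Basic

set_option autoImplicit false

open Polynomial

namespace Pool.Agent.Lib.MP_b6d645_co

/-- The join of `t` isolated vertices with `m` disjoint cliques on `a` vertices. -/
def jgraph (t m a : ℕ) : SimpleGraph (Fin t ⊕ (Fin m × Fin a)) where
  Adj x y := match x, y with
    | Sum.inl _, Sum.inl _ => False
    | Sum.inl _, Sum.inr _ => True
    | Sum.inr _, Sum.inl _ => True
    | Sum.inr p, Sum.inr q => p.1 = q.1 ∧ p.2 ≠ q.2
  symm := ⟨by
    rintro (u | u) (v | v) h
    · exact h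
    · exact h
    · exact h
    · exact ⟨h.1.symm, h.2.symm⟩⟩
  loopless := ⟨by
    rintro (u | u) h
    · exact h
    · exact h.2 rfl⟩

instance (t m a : ℕ) : DecidableRel (jgraph t m a).Adj := by
  rintro (u | u) (v | v)
  · exact inferInstanceAs (Decidable False)
  · exact inferInstanceAs (Decidable True)
  · exact inferInstanceAs (Decidable True)
  · exact inferInstanceAs (Decidable (u.1 = v.1 ∧ u.2 ≠ v.2))

/-- partial transversals of the cliques -/
def PT {m a : ℕ} (S : Finset (Fin m × Fin a)) : Prop :=
  ∀ p ∈ S, ∀ q ∈ S, p.1 = q.1 → p = q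

instance {m a : ℕ} (S : Finset (Fin m × Fin a)) : Decidable (PT S) := by
  unfold PT; infer_instance

theorem jgraph_indep_iff (t m a : ℕ) (s : Finset (Fin t ⊕ (Fin m × Fin a))) :
    (jgraph t m a).IsIndepSet (s : Set (Fin t ⊕ (Fin m × Fin a))) ↔
      (s.toRight = ∅ ∨ (s.toLeft = ∅ ∧ s.toRight ≠ ∅ ∧ PT s.toRight)) := by
  constructor
  · intro h
    by_cases hR : s.toRight = ∅
    · exact Or.inl hR
    · right
      obtain ⟨q, hq⟩ := Finset.nonempty_iff_ne_empty.2 hR
      refine ⟨?_, hR, ?_⟩
      · rw [Finset.eq_empty_iff_forall_notMem]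
        intro u hu
        have hu' : Sum.inl u ∈ s := by simpa using hu
        have hq' : Sum.inr q ∈ s := by simpa using hq
        exact h (Finset.mem_coe.2 hu') (Finset.mem_coe.2 hq') (by simp) trivial
      · intro p hp q hq hpq
        by_contra hne
        have hp' : Sum.inr p ∈ s := by simpa using hp
        have hq' : Sum.inr q ∈ s := by simpa using hq
        refine h (Finset.mem_coe.2 hp') (Finset.mem_coe.2 hq') (fun e => hne (Sum.inr.inj e)) ?_
        exact ⟨hpq, fun e => hne (Prod.ext hpq e)⟩
  · rintro h (u | u) hu (v | v) hv huv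
    · exact fun e => e
    · have hv' : v ∈ s.toRight := by simpa using hv
      have hu' : u ∈ s.toLeft := by simpa using hu
      rcases h with h | h
      · rw [h] at hv'; simp at hv'
      · rw [h.1] at hu'; simp at hu'
    · have hv' : u ∈ s.toRight := by simpa using hu
      have hu' : v ∈ s.toLeft := by simpa using hv
      rcases h with h | h
      · rw [h] at hv'; simp at hv'
      · rw [h.1] at hu'; simp at hu'
    · intro e
      have e' : u.1 = v.1 ∧ u.2 ≠ v.2 := e
      have hv' : u ∈ s.toRight := by simpa using hu
      have hu' : v ∈ s.toRight := by simpa using hv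
      rcases h with h | h
      · rw [h] at hv'; simp at hv'
      · have := h.2.2 u hv' v hu' e'.1
        exact e'.2 (by rw [this])

/-- weight of a choice in one clique -/
def owt {α : Type} (x y : ℕ[X]) : Option α → ℕ[X]
  | none => y
  | some _ => x

/-- sum over partial transversals -/
theorem sum_PT (m a : ℕ) (f : ℕ → ℕ[X]) (x y : ℕ[X]) (hf : ∀ k, k ≤ m → f k = x ^ k * y ^ (m - k)) :
    ∑ S ∈ (Finset.univ : Finset (Finset (Fin m × Fin a))).filter (fun S => PT S), f S.card =
      (y + a * x) ^ m := by
  classical
  have hsum : (y + a * x) = ∑ o : Option (Fin a), owt x y o := by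
    rw [Fintype.sum_option]
    simp [owt]
  have h1 : (y + a * x) ^ m =
      ∑ g : Fin m → Option (Fin a), ∏ i, owt x y (g i) := by
    calc (y + a * x) ^ m = ∏ _i : Fin m, (y + a * x) := by simp
      _ = _ := by rw [hsum, Finset.prod_univ_sum, Fintype.piFinset_univ]
  rw [h1]
  symm
  refine Finset.sum_bij (fun g _ => Finset.univ.filter
    (fun p : Fin m × Fin a => g p.1 = some p.2)) ?_ ?_ ?_ ?_
  · intro g _
    simp only [Finset.mem_filter, Finset.mem_univ, true_and]
    intro p hp q hq hpq
    simp only [Finset.mem_filter, Finset.mem_univ, true_and] at hp hq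
    rw [hpq, hq] at hp
    exact Prod.ext hpq (Option.some.inj hp).symm
  · intro g _ g' _ hgg
    funext i
    have hiff : ∀ j, g i = some j ↔ g' i = some j := by
      intro j
      have := Finset.ext_iff.1 hgg (i, j)
      simpa using this
    rcases hgi : g i with _ | j
    · rcases hgi' : g' i with _ | j'
      · rfl
      · rw [(hiff j').2 hgi'] at hgi
        exact absurd hgi (by simp)
    · exact ((hiff j).1 hgi).symm
  · intro S hS
    simp only [Finset.mem_filter, Finset.mem_univ, true_and] at hS
    refine ⟨fun i => if h : ∃ j, (i, j) ∈ S then some h.choose else none, Finset.mem_univ _, ?_⟩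
    ext ⟨i, j⟩
    simp only [Finset.mem_filter, Finset.mem_univ, true_and]
    constructor
    · intro h
      split_ifs at h with h'
      · have h2 := h'.choose_spec
        rw [Option.some.inj h] at h2
        exact h2
    · intro h
      have h' : ∃ j, (i, j) ∈ S := ⟨j, h⟩
      rw [dif_pos h']
      have h2 := h'.choose_spec
      have := hS _ h2 _ h rfl
      exact congrArg some (Prod.ext_iff.1 this).2
  · intro g _
    have hcard : (Finset.univ.filter (fun p : Fin m × Fin a => g p.1 = some p.2)).card =
        (Finset.univ.filter (fun i : Fin m => g i ≠ none)).card := by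
      refine Finset.card_bij (fun p _ => p.1) ?_ ?_ ?_
      · intro p hp
        simp only [Finset.mem_filter, Finset.mem_univ, true_and] at hp ⊢
        rw [hp]; simp
      · intro p hp q hq hpq
        simp only [Finset.mem_filter, Finset.mem_univ, true_and] at hp hq
        rw [hpq, hq] at hp
        exact Prod.ext hpq (Option.some.inj hp).symm
      · intro i hi
        simp only [Finset.mem_filter, Finset.mem_univ, true_and] at hi
        obtain ⟨j, hj⟩ := Option.ne_none_iff_exists'.1 hi
        exact ⟨(i, j), by simp [hj], rfl⟩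
    rw [hcard, hf _ (by
      calc _ ≤ (Finset.univ : Finset (Fin m)).card := Finset.card_filter_le _ _
        _ = m := by simp)]
    have h2 : ∏ i, owt x y (g i) =
        ∏ i, (if g i ≠ none then x else y) := by
      refine Finset.prod_congr rfl (fun i _ => ?_)
      rcases g i with _ | j <;> simp [owt]
    rw [h2, Finset.prod_ite, Finset.prod_const, Finset.prod_const]
    congr 2
    have h3 := Finset.card_filter_add_card_filter_not (s := (Finset.univ : Finset (Fin m)))
      (fun i => g i ≠ none)
    rw [Finset.card_univ, Fintype.card_fin] at h3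
    omega

theorem ipoly_main (t m a : ℕ) (ha : 1 ≤ a)
    [DecidablePred fun S : Finset (Fin t ⊕ (Fin m × Fin a)) =>
      (jgraph t m a).IsIndepSet (S : Set (Fin t ⊕ (Fin m × Fin a)))]
    [DecidablePred fun S : Finset ((Fin t ⊕ (Fin m × Fin a)) ⊕ (Fin t ⊕ (Fin m × Fin a))) =>
      (corona (jgraph t m a)).IsIndepSet
        (S : Set ((Fin t ⊕ (Fin m × Fin a)) ⊕ (Fin t ⊕ (Fin m × Fin a))))] :
    ipoly (corona (jgraph t m a)) + (1 + X) ^ (t + m * a) =
      (1 + X) ^ (m * a) * (1 + 2 * X) ^ t +
      (1 + X) ^ (t + m * a - m) * (1 + ((a : ℕ[X]) + 1) * X) ^ m := by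
  classical
  rw [ipoly_corona]
  have hN : Fintype.card (Fin t ⊕ (Fin m × Fin a)) = t + m * a := by simp
  rw [hN]
  have hma : m ≤ m * a := Nat.le_mul_of_pos_right m ha
  -- rewrite as a double sum
  have h1 : ∑ S ∈ (Finset.univ : Finset (Finset (Fin t ⊕ (Fin m × Fin a)))).filter
        (fun S : Finset (Fin t ⊕ (Fin m × Fin a)) =>
          (jgraph t m a).IsIndepSet (S : Set (Fin t ⊕ (Fin m × Fin a)))),
        (X : ℕ[X]) ^ S.card * (1 + X) ^ (t + m * a - S.card) =
      ∑ S ∈ (Finset.univ : Finset (Finset (Fin t))),
        (X : ℕ[X]) ^ S.card * (1 + X) ^ (t + m * a - S.card) +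
      ∑ S ∈ ((Finset.univ : Finset (Finset (Fin m × Fin a))).filter (fun S => PT S)).erase ∅,
        (X : ℕ[X]) ^ S.card * (1 + X) ^ (t + m * a - S.card) := by
    rw [← Finset.sum_filter_add_sum_filter_not _ (fun S : Finset (Fin t ⊕ (Fin m × Fin a)) => S.toRight = ∅)]
    congr 1
    · refine Finset.sum_bij' (fun s _ => s.toLeft) (fun S _ => Finset.disjSum S ∅) ?_ ?_ ?_ ?_ ?_
      · intro s hs; exact Finset.mem_univ _
      · intro S _
        refine Finset.mem_filter.2 ⟨Finset.mem_filter.2 ⟨Finset.mem_univ _, ?_⟩,
          Finset.toRight_disjSum⟩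
        rw [jgraph_indep_iff]
        left; exact Finset.toRight_disjSum
      · intro s hs
        have hs2 := (Finset.mem_filter.1 hs).2
        ext x
        rcases x with x | x
        · simp
        · have : x ∉ s.toRight := by rw [hs2]; simp
          simp only [Finset.mem_toRight] at this
          simp [this]
      · intro S _; exact Finset.toLeft_disjSum
      · intro s hs
        have hs2 := (Finset.mem_filter.1 hs).2
        have : s.card = s.toLeft.card := by
          rw [← Finset.card_toLeft_add_card_toRight (u := s), hs2]; simp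
        rw [this]
    · refine Finset.sum_bij' (fun s _ => s.toRight) (fun S _ => Finset.disjSum ∅ S) ?_ ?_ ?_ ?_ ?_
      · intro s hs
        have hs1 := (jgraph_indep_iff t m a s).1 (Finset.mem_filter.1 (Finset.mem_filter.1 hs).1).2
        have hs2 := (Finset.mem_filter.1 hs).2
        rcases hs1 with h | h
        · exact absurd h hs2
        · exact Finset.mem_erase.2 ⟨h.2.1, Finset.mem_filter.2 ⟨Finset.mem_univ _, h.2.2⟩⟩
      · intro S hS
        have hS1 := Finset.mem_erase.1 hS
        have hS2 := (Finset.mem_filter.1 hS1.2).2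
        refine Finset.mem_filter.2 ⟨Finset.mem_filter.2 ⟨Finset.mem_univ _, ?_⟩, ?_⟩
        · rw [jgraph_indep_iff]
          right
          refine ⟨Finset.toLeft_disjSum, ?_, ?_⟩
          · rw [Finset.toRight_disjSum]; exact hS1.1
          · rw [Finset.toRight_disjSum]; exact hS2
        · rw [Finset.toRight_disjSum]; exact hS1.1
      · intro s hs
        have hs1 := (jgraph_indep_iff t m a s).1 (Finset.mem_filter.1 (Finset.mem_filter.1 hs).1).2
        have hs2 := (Finset.mem_filter.1 hs).2
        have h3 : s.toLeft = ∅ := by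
          rcases hs1 with h | h
          · exact absurd h hs2
          · exact h.1
        ext x
        rcases x with x | x
        · have : x ∉ s.toLeft := by rw [h3]; simp
          simp only [Finset.mem_toLeft] at this
          simp [this]
        · simp
      · intro S _; exact Finset.toRight_disjSum
      · intro s hs
        have hs1 := (jgraph_indep_iff t m a s).1 (Finset.mem_filter.1 (Finset.mem_filter.1 hs).1).2
        have hs2 := (Finset.mem_filter.1 hs).2
        have h3 : s.toLeft = ∅ := by
          rcases hs1 with h | h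
          · exact absurd h hs2
          · exact h.1
        have : s.card = s.toRight.card := by
          rw [← Finset.card_toLeft_add_card_toRight (u := s), h3]; simp
        rw [this]
  rw [h1]
  -- first sum
  have h2 : ∑ S ∈ (Finset.univ : Finset (Finset (Fin t))),
        (X : ℕ[X]) ^ S.card * (1 + X) ^ (t + m * a - S.card) =
      (1 + X) ^ (m * a) * (1 + 2 * X) ^ t := by
    have h3 : ((1 : ℕ[X]) + 2 * X) ^ t =
        ∑ S ∈ (Finset.univ : Finset (Finset (Fin t))), X ^ S.card * (1 + X) ^ (t - S.card) := by
      have h4 := Finset.sum_pow_mul_eq_add_pow (X : ℕ[X]) (1 + X) (Finset.univ : Finset (Fin t))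
      rw [Finset.powerset_univ, Finset.card_univ, Fintype.card_fin] at h4
      rw [h4]
      congr 1
      ring
    rw [h3, Finset.mul_sum]
    refine Finset.sum_congr rfl (fun S _ => ?_)
    have hS : S.card ≤ t := by simpa using Finset.card_le_univ S
    have : t + m * a - S.card = m * a + (t - S.card) := by omega
    rw [this, pow_add]
    ring
  -- second sum
  have h5 : ∑ S ∈ ((Finset.univ : Finset (Finset (Fin m × Fin a))).filter (fun S => PT S)).erase ∅,
        (X : ℕ[X]) ^ S.card * (1 + X) ^ (t + m * a - S.card) + (1 + X) ^ (t + m * a) =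
      (1 + X) ^ (t + m * a - m) * (1 + ((a : ℕ[X]) + 1) * X) ^ m := by
    have hmem : (∅ : Finset (Fin m × Fin a)) ∈
        (Finset.univ : Finset (Finset (Fin m × Fin a))).filter (fun S => PT S) := by
      refine Finset.mem_filter.2 ⟨Finset.mem_univ _, ?_⟩
      intro p hp; simp at hp
    have h6 := Finset.sum_erase_add
      ((Finset.univ : Finset (Finset (Fin m × Fin a))).filter (fun S => PT S))
      (fun S => (X : ℕ[X]) ^ S.card * (1 + X) ^ (t + m * a - S.card)) hmem
    simp only [Finset.card_empty, pow_zero, one_mul, Nat.sub_zero] at h6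
    rw [h6]
    have h7 : ∀ S ∈ (Finset.univ : Finset (Finset (Fin m × Fin a))).filter (fun S => PT S),
        (X : ℕ[X]) ^ S.card * (1 + X) ^ (t + m * a - S.card) =
        (1 + X) ^ (t + m * a - m) * (X ^ S.card * (1 + X) ^ (m - S.card)) := by
      intro S hS
      have hPT : PT S := (Finset.mem_filter.1 hS).2
      have hc : S.card ≤ m := by
        have : (S.image Prod.fst).card = S.card := by
          rw [Finset.card_image_iff]
          intro p hp q hq hpq
          exact hPT p hp q hq hpq
        rw [← this]
        simpa using Finset.card_le_univ (S.image Prod.fst)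
      have : t + m * a - S.card = (t + m * a - m) + (m - S.card) := by omega
      rw [this, pow_add]
      ring
    rw [Finset.sum_congr rfl h7, ← Finset.mul_sum]
    rw [sum_PT m a (fun k => X ^ k * (1 + X) ^ (m - k)) X (1 + X) (fun k _ => rfl)]
    congr 2
    ring
  rw [add_assoc, h5, h2]

end Pool.Agent.Lib.MP_b6d645_co
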