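import Mathlib

set_option autoImplicit false

namespace Pool.Agent.Lib.MP_b6d645_co

/-- value of the independence polynomial at `b` -/
def val (t m a b : ℕ) : ℕ :=
  ((1 + b) ^ (m * a) * (1 + 2 * b) ^ t + (1 + b) ^ (t + m * a - m) * (1 + (a + 1) * b) ^ m) -
    (1 + b) ^ (t + m * a)

theorem num1 : (val 663 150 10 (2 ^ 2560) / (2 ^ 2560) ^ (1160 + 1)) % (2 ^ 2560) <
    (val 663 150 10 (2 ^ 2560) / (2 ^ 2560) ^ 1160) % (2 ^ 2560) := by
  decide +kernel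

theorem num2 : (val 663 150 10 (2 ^ 2560) / (2 ^ 2560) ^ 1170) % (2 ^ 2560) <
    (val 663 150 10 (2 ^ 2560) / (2 ^ 2560) ^ (1170 + 1)) % (2 ^ 2560) := by
  decide +kernel

theorem num3 : (1 + 1) ^ (150 * 10) * (1 + 2 * 1) ^ 663 +
    (1 + 1) ^ (663 + 150 * 10 - 150) * (1 + (10 + 1) * 1) ^ 150 < 2 ^ 2560 := by
  decide +kernel

end Pool.Agent.Lib.MP_b6d645_co
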