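import Mathlib
import Pool.Agent.Lib.MP_b6d645_co.Basic
import Pool.Agent.Lib.MP_b6d645_co.Join
import Pool.Agent.Lib.MP_b6d645_co.Numeric

set_option autoImplicit false

open Polynomial

namespace Pool.Agent.Lib.MP_b6d645_co

theorem cnt_val (t m a b : ℕ) (ha : 1 ≤ a)
    (hb : (1 + 1) ^ (m * a) * (1 + 2 * 1) ^ t +
      (1 + 1) ^ (t + m * a - m) * (1 + (a + 1) * 1) ^ m < b) (k : ℕ) :
    cnt (corona (jgraph t m a)) k = (val t m a b / b ^ k) % b := by
  classical
  have hm := ipoly_main t m a ha
  have hev : ∀ x : ℕ, (ipoly (corona (jgraph t m a))).eval x + (1 + x) ^ (t + m * a) =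
      (1 + x) ^ (m * a) * (1 + 2 * x) ^ t +
      (1 + x) ^ (t + m * a - m) * (1 + (a + 1) * x) ^ m := by
    intro x
    have h0 := congrArg (Polynomial.eval x) hm
    simp only [Polynomial.eval_add, Polynomial.eval_mul, Polynomial.eval_pow,
      Polynomial.eval_one, Polynomial.eval_X, Polynomial.eval_ofNat,
      Polynomial.eval_natCast, Nat.cast_id] at h0
    exact h0
  have h1 : (ipoly (corona (jgraph t m a))).eval 1 < b :=
    lt_of_le_of_lt ((Nat.le_add_right _ _).trans_eq (hev 1)) hb
  have h4 : (ipoly (corona (jgraph t m a))).eval b = val t m a b := by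
    unfold val
    rw [← hev b, Nat.add_sub_cancel]
  rw [← ipoly_coeff, ← kron k _ _ h1, h4]

/-- If the numerical data of the corona of the join show a strict descent followed by a strict
ascent, then unimodality fails for very well-covered graphs. -/
theorem main (t m a b k1 k2 : ℕ) (ha : 1 ≤ a)
    (hb : (1 + 1) ^ (m * a) * (1 + 2 * 1) ^ t +
      (1 + 1) ^ (t + m * a - m) * (1 + (a + 1) * 1) ^ m < b)
    (hk : k1 ≤ k2)
    (num1 : (val t m a b / b ^ (k1 + 1)) % b < (val t m a b / b ^ k1) % b)
    (num2 : (val t m a b / b ^ k2) % b < (val t m a b / b ^ (k2 + 1)) % b) :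
    ¬ (∀ (n : ℕ) (G : SimpleGraph (Fin n)),
      (∀ v : Fin n, ∃ w : Fin n, G.Adj v w) →
      (∀ s : Finset (Fin n),
        Maximal (fun t : Finset (Fin n) => G.IsIndepSet (t : Set (Fin n))) s →
          2 * s.card = n) →
      ∃ m : ℕ,
        (∀ i : ℕ, i < m →
          {s : Finset (Fin n) | G.IsIndepSet (s : Set (Fin n)) ∧ s.card = i}.ncard ≤
          {s : Finset (Fin n) | G.IsIndepSet (s : Set (Fin n)) ∧ s.card = i + 1}.ncard) ∧
        (∀ i : ℕ, m ≤ i →
          {s : Finset (Fin n) | G.IsIndepSet (s : Set (Fin n)) ∧ s.card = i + 1}.ncard ≤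
          {s : Finset (Fin n) | G.IsIndepSet (s : Set (Fin n)) ∧ s.card = i}.ncard)) := by
  intro hall
  classical
  let W : Type := Fin t ⊕ (Fin m × Fin a)
  let e : Fin (Fintype.card (W ⊕ W)) ≃ (W ⊕ W) := (Fintype.equivFin (W ⊕ W)).symm
  have hcard : Fintype.card (W ⊕ W) = 2 * Fintype.card W := by
    rw [Fintype.card_sum]; ring
  obtain ⟨M, hm1, hm2⟩ := hall (Fintype.card (W ⊕ W)) ((corona (jgraph t m a)).comap e)
    (by
      intro v
      obtain ⟨y, hy⟩ := corona_noisol (jgraph t m a) (e v)
      exact ⟨e.symm y, by simpa [SimpleGraph.comap_adj] using hy⟩)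
    (by
      intro s hs
      have hs' : Maximal (fun t' : Finset (W ⊕ W) =>
          (corona (jgraph t m a)).IsIndepSet (t' : Set (W ⊕ W))) (s.map e.toEmbedding) := by
        constructor
        · intro a ha b hb hab
          simp only [Finset.coe_map, Equiv.coe_toEmbedding, Set.mem_image, Finset.mem_coe] at ha hb
          obtain ⟨a', ha', rfl⟩ := ha
          obtain ⟨b', hb', rfl⟩ := hb
          have := hs.1 (Finset.mem_coe.2 ha') (Finset.mem_coe.2 hb') (fun h => hab (by rw [h]))
          simpa [SimpleGraph.comap_adj] using this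
        · intro t' ht hst
          have ht' : ((corona (jgraph t m a)).comap e).IsIndepSet
              ((t'.map e.symm.toEmbedding : Finset _) : Set _) := by
            intro a ha b hb hab
            simp only [Finset.coe_map, Equiv.coe_toEmbedding, Set.mem_image,
              Finset.mem_coe] at ha hb
            obtain ⟨a', ha', rfl⟩ := ha
            obtain ⟨b', hb', rfl⟩ := hb
            have := ht (Finset.mem_coe.2 ha') (Finset.mem_coe.2 hb') (fun h => hab (by rw [h]))
            simpa [SimpleGraph.comap_adj] using this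
          have hsub : s ≤ t'.map e.symm.toEmbedding := by
            intro x hx
            have : e x ∈ t' := hst (Finset.mem_map_of_mem _ hx)
            exact Finset.mem_map.2 ⟨e x, this, by simp⟩
          have := hs.2 ht' hsub
          intro x hx
          have hx2 : e.symm x ∈ s := this (Finset.mem_map.2 ⟨x, hx, rfl⟩)
          exact Finset.mem_map.2 ⟨e.symm x, hx2, by simp⟩
      have h := corona_maximal (jgraph t m a) _ hs'
      rw [Finset.card_map] at h
      rw [h, hcard])
  have hc : ∀ k, {s : Finset (Fin (Fintype.card (W ⊕ W))) |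
      ((corona (jgraph t m a)).comap e).IsIndepSet (s : Set _) ∧ s.card = k}.ncard =
      (val t m a b / b ^ k) % b := by
    intro k
    have h1 := cnt_comap e (corona (jgraph t m a)) k
    rw [cnt_val t m a b ha hb] at h1
    exact h1
  rcases Nat.lt_or_ge k1 M with h | h
  · have h1 := hm1 k1 h
    rw [hc, hc] at h1
    exact absurd num1 (not_lt.2 h1)
  · have h1 := hm2 k2 (le_trans h hk)
    rw [hc, hc] at h1
    exact absurd num2 (not_lt.2 h1)

end Pool.Agent.Lib.MP_b6d645_co
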